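import Pool.Agent.H.MP_5b422c_co.A

set_option autoImplicit false

namespace Pool.Agent.Results.MP_5b422c_co.NearLinear

open Cardinal

theorem result :
    (∀ ε : ℝ, 0 < ε → ∃ (V : Type) (G : SimpleGraph V),
      IsLeast {c : Cardinal.{0} | ∃ α : Type, #α = c ∧ Nonempty (G.Coloring α)} ℵ₁ ∧
      ∀ S : Finset V, ∃ D : Finset (Sym2 V), (D.card : ℝ) ≤ (S.card : ℝ) ^ (1 + ε) ∧
        ((G.deleteEdges D).induce (S : Set V)).IsBipartite) ∧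
    (∀ g : ℕ → ℕ, Filter.Tendsto g Filter.atTop Filter.atTop →
      ∃ (V : Type) (G : SimpleGraph V),
        IsLeast {c : Cardinal.{0} | ∃ α : Type, #α = c ∧ Nonempty (G.Coloring α)} ℵ₁ ∧
        ∀ S : Finset V, ∃ D : Finset (Sym2 V), D.card ≤ g S.card * S.card ∧
          ((G.deleteEdges D).induce (S : Set V)).IsBipartite) := by
  refine ⟨fun ε hε => ?_, Pool.Agent.H.MP_5b422c_co.main⟩
  obtain ⟨V, G, h1, h2⟩ := Pool.Agent.H.MP_5b422c_co.main (fun n => ⌊(n : ℝ) ^ ε⌋₊)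
    (tendsto_nat_floor_atTop.comp ((tendsto_rpow_atTop hε).comp tendsto_natCast_atTop_atTop))
  refine ⟨V, G, h1, fun S => ?_⟩
  obtain ⟨D, h3, h4⟩ := h2 S
  refine ⟨D, ?_, h4⟩
  have h0 : (0 : ℝ) ≤ S.card := Nat.cast_nonneg _
  have h5 : (D.card : ℝ) ≤ (⌊(S.card : ℝ) ^ ε⌋₊ : ℝ) * S.card := by exact_mod_cast h3
  have h6 : (⌊(S.card : ℝ) ^ ε⌋₊ : ℝ) ≤ (S.card : ℝ) ^ ε := Nat.floor_le (Real.rpow_nonneg h0 _)
  rw [Real.rpow_add' h0 (by linarith), Real.rpow_one]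
  nlinarith

end Pool.Agent.Results.MP_5b422c_co.NearLinear
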